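import Mathlib

set_option autoImplicit false

namespace Pool.Agent.Results.MP_bfacb1_co.House

def K {V W : Type} (G : SimpleGraph V) (H : SimpleGraph W) : Set ℕ :=
  {k | 1 ≤ k ∧ ∃ c : Sym2 V → Fin k,
    (∀ u v w, G.Adj u v → G.Adj u w → v ≠ w → c s(u, v) ≠ c s(u, w)) ∧
    (∀ i, ∃ e ∈ G.edgeSet, c e = i) ∧
    ¬ ∃ f : W → V, Function.Injective f ∧ (∀ a b, H.Adj a b → G.Adj (f a) (f b)) ∧
      Set.InjOn (fun e => c (e.map f)) H.edgeSet}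

def house : SimpleGraph (Fin 5) :=
  SimpleGraph.fromEdgeSet {s(0, 1), s(0, 3), s(0, 4), s(1, 2), s(1, 4), s(2, 3)}

theorem inj_iff {k : ℕ} (g : Sym2 (Fin 5) → Fin k) : Set.InjOn g house.edgeSet ↔
    [g s(0, 1), g s(0, 3), g s(0, 4), g s(1, 2), g s(1, 4), g s(2, 3)].Nodup := by
  have : house.edgeSet = {x | x ∈ [s(0, 1), s(0, 3), s(0, 4), s(1, 2), s(1, 4), s(2, 3)]} := by
    ext x
    revert x
    simp only [house, SimpleGraph.edgeSet_fromEdgeSet, Set.mem_sdiff, Set.mem_insert_iff,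
      Set.mem_singleton_iff, Set.mem_ofPred_eq, Sym2.mem_diagSet]
    decide
  rw [this]
  exact (List.nodup_map_iff_inj_on (f := g) (by decide)).symm

def hs : List (Fin 5 × Fin 5 × Fin 5 × Fin 5 × Fin 5) := [(0, 1, 2, 3, 4), (0, 1, 2, 4, 3), (0, 1, 3, 2, 4), (0, 1, 3, 4, 2), (0, 1, 4, 2, 3), (0, 1, 4, 3, 2), (0, 2, 1, 3, 4), (0, 2, 1, 4, 3), (0, 2, 3, 1, 4), (0, 2, 3, 4, 1), (0, 2, 4, 1, 3), (0, 2, 4, 3, 1), (0, 3, 1, 2, 4), (0, 3, 1, 4, 2), (0, 3, 2, 1, 4), (0, 3, 2, 4, 1), (0, 3, 4, 1, 2), (0, 3, 4, 2, 1), (0, 4, 1, 2, 3), (0, 4, 1, 3, 2), (0, 4, 2, 1, 3), (0, 4, 2, 3, 1), (0, 4, 3, 1, 2), (0, 4, 3, 2, 1), (1, 2, 0, 3, 4), (1, 2, 0, 4, 3), (1, 2, 3, 0, 4), (1, 2, 3, 4, 0), (1, 2, 4, 0, 3), (1, 2, 4, 3, 0), (1, 3, 0, 2, 4), (1, 3, 0, 4, 2), (1, 3, 2, 0, 4), (1, 3, 2, 4, 0), (1, 3, 4, 0, 2), (1, 3, 4, 2, 0), (1, 4, 0, 2, 3), (1, 4,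 0, 3, 2), (1, 4, 2, 0, 3), (1, 4, 2, 3, 0), (1, 4, 3, 0, 2), (1, 4, 3, 2, 0), (2, 3, 0, 1, 4), (2, 3, 0, 4, 1), (2, 3, 1, 0, 4), (2, 3, 1, 4, 0), (2, 3, 4, 0, 1), (2, 3, 4, 1, 0), (2, 4, 0, 1, 3), (2, 4, 0, 3, 1), (2, 4, 1, 0, 3), (2, 4, 1, 3, 0), (2, 4, 3, 0, 1), (2, 4, 3, 1, 0), (3, 4, 0, 1, 2), (3, 4, 0, 2, 1), (3, 4, 1, 0, 2), (3, 4, 1, 2, 0), (3, 4, 2, 0, 1), (3, 4, 2, 1, 0)]

def tb (x0 x1 x2 x3 x4 x5 x6 x7 x8 x9 : Fin 6) : Fin 5 → Fin 5 → Fin 6 :=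
  ![![0, x0, x1, x2, x3], ![x0, 0, x4, x5, x6], ![x1, x4, 0, x7, x8], ![x2, x5, x7, 0, x9],
    ![x3, x6, x8, x9, 0]]

def Rb {k : ℕ} (t : Fin 5 → Fin 5 → Fin k) (a b c d e : Fin 5) : Prop :=
  [t a b, t a d, t a e, t b c, t b e, t c d].Nodup

set_option synthInstance.maxSize 4096 in
theorem six : ∀ x4 x5 x6 : Fin 6, [0, x4, x5, x6].Nodup → ∀ x7 x8 : Fin 6, [1, x4, x7, x8].Nodup →
    ∀ x9 : Fin 6, [2, x5, x7, x9].Nodup → [3, x6, x8, x9].Nodup →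
    4 ∈ [x4, x5, x6, x7, x8, x9] → 5 ∈ [x4, x5, x6, x7, x8, x9] →
    ∃ f ∈ hs, [f.1, f.2.1, f.2.2.1, f.2.2.2.1, f.2.2.2.2].Nodup ∧
      Rb (tb 0 1 2 3 x4 x5 x6 x7 x8 x9) f.1 f.2.1 f.2.2.1 f.2.2.2.1 f.2.2.2.2 := by
  unfold Rb
  simp only [← List.any_iff_exists_prop]
  decide +kernel

theorem mem {k : ℕ} (hk : 1 ≤ k) (t : Fin 5 → Fin 5 → Fin k) (h1 : ∀ a b, t a b = t b a)
    (h2 : ∀ u v w, u ≠ v → u ≠ w → v ≠ w → t u v ≠ t u w) (h3 : ∀ i, ∃ u v, u ≠ v ∧ t u v = i)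
    (h4 : ∀ a b c : Fin 5, [a, b, c].Nodup → ∀ d e, [a, b, c, d, e].Nodup → ¬ Rb t a b c d e) :
    k ∈ K (⊤ : SimpleGraph (Fin 5)) house := by
  refine ⟨hk, Sym2.lift ⟨t, h1⟩, h2, fun i => ?_, ?_⟩
  · obtain ⟨u, v, h, e⟩ := h3 i
    exact ⟨s(u, v), h, e⟩
  · rintro ⟨f, f1, -, f2⟩
    rw [inj_iff] at f2
    simp only [Sym2.map_mk, Sym2.lift_mk] at f2
    exact h4 (f 0) (f 1) (f 2) (by simp [f1.eq_iff]) (f 3) (f 4) (by simp [f1.eq_iff]) f2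

theorem result : ∃ G H : SimpleGraph (Fin 5), 5 ∈ K G H ∧ 6 ∉ K G H ∧ 7 ∈ K G H := by
  refine ⟨⊤, house, mem (by norm_num) ![![0, 0, 1, 2, 3], ![0, 0, 2, 3, 4], ![1, 2, 0, 4, 0], ![2, 3, 4, 0, 1], ![3, 4, 0, 1, 0]] (by decide) (by decide) (by decide)
    (by unfold Rb; decide +kernel), ?_, mem (by norm_num) ![![0, 0, 1, 2, 3], ![0, 0, 2, 1, 4], ![1, 2, 0, 0, 5], ![2, 1, 0, 0, 6], ![3, 4, 5, 6, 0]] (by decide) (by decide) (by decide)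
    (by unfold Rb; decide +kernel)⟩
  rintro ⟨-, c, h1, h2, h3⟩
  obtain ⟨σ, hσ⟩ := Equiv.Perm.exists_extending_pair (f := fun i : Fin 4 => c s(0, i.succ))
    (g := Fin.castLE (by norm_num))
    (fun i j e => by
      by_contra h
      exact h1 0 _ _ (Fin.succ_ne_zero i).symm (Fin.succ_ne_zero j).symm
        (fun e => h (Fin.succ_injective _ e)) e) (Fin.castLE_injective _)
  have e0 : σ (c s(0, 1)) = 0 := hσ 0
  have e1 : σ (c s(0, 2)) = 1 := hσ 1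
  have e2 : σ (c s(0, 3)) = 2 := hσ 2
  have e3 : σ (c s(0, 4)) = 3 := hσ 3
  have p : ∀ u a b d e : Fin 5, [u, a, b, d, e].Nodup →
      [σ (c s(u, a)), σ (c s(u, b)), σ (c s(u, d)), σ (c s(u, e))].Nodup := by
    intro u a b d e h
    refine (List.nodup_map_iff_inj_on (f := fun x => σ (c s(u, x))) h.of_cons).2 ?_
    intro x hx y hy e
    by_contra hn
    exact h1 u x y (fun e => h.notMem (e ▸ hx)) (fun e => h.notMem (e ▸ hy)) hn (σ.injective e)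
  have t : ∀ a b, a ≠ b → tb 0 1 2 3 (σ (c s(1, 2))) (σ (c s(1, 3))) (σ (c s(1, 4)))
      (σ (c s(2, 3))) (σ (c s(2, 4))) (σ (c s(3, 4))) a b = σ (c s(a, b)) := by
    intro a b h
    rw [← e0, ← e1, ← e2, ← e3]
    fin_cases a <;> fin_cases b <;> first | exact (h rfl).elim | rfl | exact congrArg (fun z => σ (c z)) Sym2.eq_swap
  have su : ∀ i : Fin 6, 4 ≤ i → i ∈ [σ (c s(1, 2)), σ (c s(1, 3)), σ (c s(1, 4)),
      σ (c s(2, 3)), σ (c s(2, 4)), σ (c s(3, 4))] := by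
    intro i hi
    obtain ⟨e, he, h⟩ := h2 (σ.symm i)
    induction e using Sym2.ind with
    | _ a b =>
      have := t a b he
      rw [h, σ.apply_symm_apply] at this
      subst this
      revert hi
      generalize σ (c s(1, 2)) = x4, σ (c s(1, 3)) = x5, σ (c s(1, 4)) = x6, σ (c s(2, 3)) = x7,
        σ (c s(2, 4)) = x8, σ (c s(3, 4)) = x9
      fin_cases a <;> fin_cases b <;> simp [tb]
  have q1 := p 1 0 2 3 4 (by decide)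
  have q2 := p 2 0 1 3 4 (by decide)
  have q3 := p 3 0 1 2 4 (by decide)
  have q4 := p 4 0 1 2 3 (by decide)
  rw [Sym2.eq_swap (a := 1) (b := 0), e0] at q1
  rw [Sym2.eq_swap (a := 2) (b := 0), Sym2.eq_swap (a := 2) (b := 1), e1] at q2
  rw [Sym2.eq_swap (a := 3) (b := 0), Sym2.eq_swap (a := 3) (b := 1),
    Sym2.eq_swap (a := 3) (b := 2), e2] at q3
  rw [Sym2.eq_swap (a := 4) (b := 0), Sym2.eq_swap (a := 4) (b := 1),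
    Sym2.eq_swap (a := 4) (b := 2), Sym2.eq_swap (a := 4) (b := 3), e3] at q4
  obtain ⟨⟨a, b, d, e, g⟩, -, nd, hr⟩ :=
    six _ _ _ q1 _ _ q2 _ q3 q4 (su 4 le_rfl) (su 5 (by decide))
  have fi : Function.Injective ![a, b, d, e, g] := List.nodup_ofFn.1 (by simpa using nd)
  refine h3 ⟨_, fi, fun a b h => fi.ne h.ne, ?_⟩
  refine Set.InjOn.of_comp (g := σ) ((inj_iff _).2 ?_)
  simp only [List.nodup_cons, List.mem_cons, List.not_mem_nil, or_false, not_or] at nd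
  simp only [Rb, t, ne_eq, nd, not_false_eq_true] at hr
  simpa only [Function.comp_apply, Sym2.map_mk, Matrix.cons_val] using hr

end Pool.Agent.Results.MP_bfacb1_co.House
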